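import Pool.Agent.H7.LR.Cover
import Pool.Agent.H81.LR.Split

/-! The choice of `C` (section 11 of think note 2620). -/

set_option linter.unusedSectionVars false

open Module Submodule H15 H81.WK H81.LR

namespace H7.LR

variable {ι : Type*} [Fintype ι] {E : Type*} [AddCommGroup E] [Module ℝ E]
  [FiniteDimensional ℝ E] {w : ι → E}

/-- a basis of `E` inside `ι \ H` which extends a basis of `sp (K \ H)`, together with `K \ H`. -/
theorem exists_C0 {K H : Set ι} {b : ℕ} (h0 : cc w H = 0)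
    (hb : K.ncard ≤ finrank ℝ (sp w K) + b) :
    ∃ C₀ : Set ι, K \ H ⊆ C₀ ∧ Disjoint C₀ H ∧ cc w C₀ᶜ = 0 ∧ C₀.ncard ≤ finrank ℝ E + b := by
  classical
  obtain ⟨b₀, hb0K, -, hsp0, hli0⟩ := exists_linearIndepOn_extension (K := ℝ) (v := w)
    (linearIndepOn_empty ℝ w) (Set.empty_subset (K \ H))
  obtain ⟨B, hBH, hbB, hspB, hliB⟩ := exists_linearIndepOn_extension (K := ℝ) (v := w)
    hli0 (show b₀ ⊆ Hᶜ from fun x hx => (hb0K hx).2)
  have hBtop : sp w B = ⊤ := by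
    refine top_unique ?_
    rw [← cc_eq_zero_iff.1 h0]
    exact span_le.2 hspB
  have hBc : B.ncard = finrank ℝ E := by
    rw [← finrank_sp_eq hliB, hBtop, finrank_top]
  have hb0c : b₀.ncard = finrank ℝ (sp w (K \ H)) := by
    have e : sp w b₀ = sp w (K \ H) := le_antisymm (sp_mono hb0K) (span_le.2 hsp0)
    rw [← finrank_sp_eq hli0, e]
  refine ⟨B ∪ (K \ H), Set.subset_union_right, ?_, ?_, ?_⟩
  · rw [Set.disjoint_left]
    rintro x (hx | hx) hxH
    · exact hBH hx hxH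
    · exact hx.2 hxH
  · rw [cc_eq_zero_iff, compl_compl]
    refine top_unique ?_
    rw [← hBtop]
    exact sp_mono Set.subset_union_left
  · have h1 : B ∪ (K \ H) = B ∪ ((K \ H) \ b₀) := by
      ext x
      constructor
      · rintro (h | h)
        · exact Or.inl h
        · by_cases hx : x ∈ b₀
          · exact Or.inl (hbB hx)
          · exact Or.inr ⟨h, hx⟩
      · rintro (h | h)
        · exact Or.inl h
        · exact Or.inr h.1
    have h2 := Set.ncard_union_le B ((K \ H) \ b₀)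
    have h3 : ((K \ H) \ b₀).ncard + b₀.ncard = (K \ H).ncard :=
      Set.ncard_sdiff_add_ncard_of_subset hb0K (Set.toFinite _)
    have h4 : sp w K ≤ sp w (K \ H) ⊔ sp w (K ∩ H) := by
      rw [← sp_union]
      refine sp_mono fun x hx => ?_
      by_cases h : x ∈ H
      · exact Or.inr ⟨hx, h⟩
      · exact Or.inl ⟨hx, h⟩
    have h5 := Submodule.finrank_mono h4
    have h6 := Submodule.finrank_add_le_finrank_add_finrank (sp w (K \ H)) (sp w (K ∩ H))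
    have h7 : finrank ℝ (sp w (K ∩ H)) ≤ (K ∩ H).ncard := finrank_sp_le
    have h8 : (K ∩ H).ncard + (K \ H).ncard = K.ncard :=
      Set.ncard_inter_add_ncard_sdiff_eq_ncard K H (Set.toFinite _)
    rw [h1]
    omega

private theorem le_card_of_span {C : Set ι} (h : cc w Cᶜ = 0) : finrank ℝ E ≤ C.ncard := by
  have e1 := cc_eq_zero_iff.1 h
  rw [compl_compl] at e1
  have e2 : finrank ℝ (sp w C) ≤ C.ncard := finrank_sp_le
  rwa [e1, finrank_top] at e2

private theorem span_mono {C C' : Set ι} (h : cc w Cᶜ = 0) (hCC : C ⊆ C') : cc w C'ᶜ = 0 := by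
  have := cc_mono (w := w) (Set.compl_subset_compl.2 hCC)
  omega

/-- the common start: `exists_C0` and `cover`. -/
private theorem start {j κ f s b Q γ : ℕ} (hT : TFam w j κ f s) {K H : Set ι}
    (hH0 : cc w H = 0) (hHe : ∀ e, cc w (insert e H) = 0) (hH : 2 * H.ncard + 5 ≤ κ + f)
    (hb : K.ncard ≤ finrank ℝ (sp w K) + b) (hQ : 1 ≤ Q)
    (hγ : 2 * κ < Q * (γ + 1)) (hα : j + 1 + b ≤ κ) :
    ∃ C : Set ι, K \ H ⊆ C ∧ Disjoint C H ∧ cc w Cᶜ = 0 ∧ (∀ e ∈ C, cc w (Cᶜ ∪ {e}) = 0) ∧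
      C.ncard ≤ κ + j + 1 + b + γ + 3 * j * Q := by
  obtain ⟨C₀, h1, h2, h3, h4⟩ := exists_C0 hH0 hb
  obtain ⟨C, t, k1, k2, k3, k4, k5⟩ := cover hT.fam hT.hj hT.hs h2 hH h3 hHe hQ
  have hdim := hT.fam.dim
  have ht : t ≤ γ := by
    by_contra hcon
    have h5 : γ + 1 ≤ t := by omega
    have h6 := Nat.mul_le_mul_left Q h5
    omega
  exact ⟨C, h1.trans k1, k2, span_mono h3 k1, k3, by omega⟩

/-- case X: `exists_C0`, `cover`, `split`. -/
theorem exists_goodC {j κ f s b Q γ : ℕ} (hT : TFam w j κ f s) {K H : Set ι} (_hHK : H ⊆ K)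
    (hH0 : cc w H = 0) (hHe : ∀ e, cc w (insert e H) = 0) (hH : 2 * H.ncard + 5 ≤ κ + f)
    (hb : K.ncard ≤ finrank ℝ (sp w K) + b) (hQ : 1 ≤ Q)
    (hK : K.ncard + 6 * (j + 1) * (Q + 1) ≤ κ + j + 1) (hγ : 2 * κ < Q * (γ + 1))
    (hα : j + 1 + (b + 2 * γ + 3 * j * Q + 1) ≤ κ) :
    ∃ (C : Set ι) (a : ℕ), a ≤ b + 2 * γ + 3 * j * Q + 1 ∧ K \ H ⊆ C ∧ Disjoint C H ∧
      C.ncard = κ + j + 1 + a ∧ (∀ e ∈ C, cc w (Cᶜ ∪ {e}) = 0) ∧ cc w Cᶜ = 0 ∧
      (∀ Z, Z ⊆ C \ K → Z.ncard ≤ cc w (Cᶜ ∪ Z) + 1 → 2 * Z.ncard ≤ (C \ K).ncard) := by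
  obtain ⟨C₁, h1, h2, h3, h4, h5⟩ := start hT hH0 hHe hH hb hQ hγ (by omega)
  have hdim := hT.fam.dim
  have h6 := le_card_of_span h3
  have h7 : C₁.ncard ≤ (C₁ \ K).ncard + K.ncard := by
    have h8 : (C₁ ∩ K).ncard + (C₁ \ K).ncard = C₁.ncard :=
      Set.ncard_inter_add_ncard_sdiff_eq_ncard C₁ K (Set.toFinite _)
    have h9 : (C₁ ∩ K).ncard ≤ K.ncard := Set.ncard_le_ncard Set.inter_subset_right (Set.toFinite _)
    omega
  have h8 : (C₁ \ K).ncard ≤ C₁.ncard := Set.ncard_le_ncard Set.sdiff_subset (Set.toFinite _)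
  obtain ⟨C, t, k1, k2, k3, k4, k5, k6⟩ := split hT.fam hT.hj hT.hs (K := K) h2 (by
    intro x hx
    by_cases h : x ∈ H
    · exact Or.inr h
    · exact Or.inl (h1 ⟨hx, h⟩)) hH h4 hQ (by omega)
  have ht : t ≤ γ := by
    by_contra hcon
    have h9 : γ + 1 ≤ t := by omega
    have h10 := Nat.mul_le_mul_left Q h9
    omega
  have h9 := span_mono h3 k1
  have h10 := le_card_of_span h9
  refine ⟨C, C.ncard - (κ + j + 1), by omega, h1.trans k1, k2, by omega, k3, h9, k4⟩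

/-- case Y: `exists_C0`, `cover`, then enlarge so that `a ≥ 2 s + 2` and use `ser_small`. -/
theorem exists_goodC' {j κ f s b Q γ α : ℕ} (hT : TFam w j κ f s) {K H : Set ι} (_hHK : H ⊆ K)
    (hH0 : cc w H = 0) (hHe : ∀ e, cc w (insert e H) = 0) (hH : 2 * H.ncard + 5 ≤ κ + f)
    (hb : K.ncard ≤ finrank ℝ (sp w K) + b) (hQ : 1 ≤ Q)
    (hK : K.ncard + 6 * (j + 1) * (Q + 1) ≤ κ + j + 1) (hγ : 2 * κ < Q * (γ + 1))
    (hα : j + 1 + α ≤ κ) (hα1 : b + γ + 3 * j * Q ≤ α) (hα2 : 2 * s + 2 ≤ α) :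
    ∃ (C : Set ι) (a : ℕ), a ≤ α ∧ 2 * s + 1 ≤ a ∧ K \ H ⊆ C ∧ Disjoint C H ∧
      C.ncard = κ + j + 1 + a ∧ (∀ e ∈ C, cc w (Cᶜ ∪ {e}) = 0) ∧ cc w Cᶜ = 0 ∧
      (∀ Z, Z ⊆ C \ K → Z.ncard ≤ cc w (Cᶜ ∪ Z) + 1 → 2 * Z.ncard ≤ (C \ K).ncard) := by
  obtain ⟨C₁, h1, h2, h3, h4, h5⟩ := start hT hH0 hHe hH hb hQ hγ (by omega)
  have hdim := hT.fam.dim
  have hcard := hT.fam.card
  have h6 := le_card_of_span h3
  obtain ⟨C, k1, k2, k3⟩ : ∃ C : Set ι, C₁ ⊆ C ∧ C ⊆ Hᶜ ∧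
      C.ncard = max C₁.ncard (κ + j + 1 + (2 * s + 2)) := by
    refine Set.exists_subsuperset_card_eq ?_ (le_max_left _ _) ?_
    · intro x hx
      exact Set.disjoint_left.1 h2 hx
    · have h7 := Set.ncard_add_ncard_compl H
      rw [Nat.card_eq_fintype_card] at h7
      have h8 : C₁.ncard ≤ (Hᶜ).ncard :=
        Set.ncard_le_ncard (fun x hx => Set.disjoint_left.1 h2 hx) (Set.toFinite _)
      refine max_le h8 ?_
      omega
  have k4 : κ + j + 1 + (2 * s + 2) ≤ C.ncard := by rw [k3]; exact le_max_right _ _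
  have k5 : C.ncard ≤ κ + j + 1 + α := by
    rw [k3]
    exact max_le (by omega) (by omega)
  have h7 : C.ncard ≤ (C \ K).ncard + K.ncard := by
    have h8 : (C ∩ K).ncard + (C \ K).ncard = C.ncard :=
      Set.ncard_inter_add_ncard_sdiff_eq_ncard C K (Set.toFinite _)
    have h9 : (C ∩ K).ncard ≤ K.ncard := Set.ncard_le_ncard Set.inter_subset_right (Set.toFinite _)
    omega
  refine ⟨C, C.ncard - (κ + j + 1), by omega, by omega, h1.trans k1, ?_, by omega, ?_,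
    span_mono h3 k1, ?_⟩
  · rw [Set.disjoint_left]
    exact fun x hx => k2 hx
  · intro e he
    by_cases h : e ∈ C₁
    · have h8 := h4 e h
      have h9 := cc_mono (w := w) (X := Cᶜ ∪ {e}) (Y := C₁ᶜ ∪ {e})
        (Set.union_subset_union_left _ (Set.compl_subset_compl.2 k1))
      omega
    · have h9 := cc_mono (w := w) (X := Cᶜ ∪ {e}) (Y := C₁ᶜ) (by
        rintro x (hx | hx)
        · exact fun hx2 => hx (k1 hx2)
        · rw [Set.mem_singleton_iff] at hx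
          rw [hx]
          exact h)
      omega
  · intro Z hZ hZs
    have h8 := ser_small hT.fam (C := C) (Z := Z) (a := C.ncard - (κ + j + 1)) (by omega)
      (by omega) (hZ.trans Set.sdiff_subset) hZs
    have h9 : j ≤ 3 * (j + 1) * (Q + 1) := by nlinarith
    have h10 : 6 * (j + 1) * (Q + 1) = 2 * (3 * (j + 1) * (Q + 1)) := by ring
    omega

end H7.LR
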