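import Pool.Agent.H7.LR.ChooseC

/-! The choice of `C` with the cost `δ` of the covering as a parameter, and the number of blocks of
`split` as large as possible (section 11 of think note 2620, smaller constants). -/

set_option linter.unusedSectionVars false

open Module Submodule H15 H81.WK H81.LR

namespace H7.LR

variable {ι : Type*} [Fintype ι] {E : Type*} [AddCommGroup E] [Module ℝ E]
  [FiniteDimensional ℝ E] {w : ι → E}

/-- the covering of the coloops at cost `δ`. -/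
def CovD (w : ι → E) (H : Set ι) (δ : ℕ) : Prop :=
  ∀ C₀ : Set ι, Disjoint C₀ H → cc w C₀ᶜ = 0 → ∃ C : Set ι, C₀ ⊆ C ∧ Disjoint C H ∧
    (∀ e ∈ C, cc w (Cᶜ ∪ {e}) = 0) ∧ C.ncard ≤ C₀.ncard + δ

theorem covD_of_cover {j κ f s Q γ b : ℕ} (hT : TFam w j κ f s) {H : Set ι}
    (hH : 2 * H.ncard + 5 ≤ κ + f) (hHe : ∀ e, cc w (insert e H) = 0) (hQ : 1 ≤ Q)
    (hγ : 2 * κ < Q * (γ + 1)) (hb : j + 1 + b ≤ κ) :
    ∀ C₀ : Set ι, Disjoint C₀ H → cc w C₀ᶜ = 0 → C₀.ncard ≤ κ + j + 1 + b →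
    ∃ C : Set ι, C₀ ⊆ C ∧ Disjoint C H ∧
    (∀ e ∈ C, cc w (Cᶜ ∪ {e}) = 0) ∧ C.ncard ≤ C₀.ncard + (γ + 3 * j * Q) := by
  intro C₀ h1 h2 h3
  obtain ⟨C, t, k1, k2, k3, k4, k5⟩ := cover hT.fam hT.hj hT.hs h1 hH h2 hHe hQ
  have ht : t ≤ γ := by
    by_contra hcon
    have h5 : γ + 1 ≤ t := by omega
    have h6 := Nat.mul_le_mul_left Q h5
    omega
  exact ⟨C, k1, k2, k3, by omega⟩

private theorem le_card_of_span {C : Set ι} (h : cc w Cᶜ = 0) : finrank ℝ E ≤ C.ncard := by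
  have e1 := cc_eq_zero_iff.1 h
  rw [compl_compl] at e1
  have e2 : finrank ℝ (sp w C) ≤ C.ncard := finrank_sp_le
  rwa [e1, finrank_top] at e2

private theorem span_mono {C C' : Set ι} (h : cc w Cᶜ = 0) (hCC : C ⊆ C') : cc w C'ᶜ = 0 := by
  have := cc_mono (w := w) (Set.compl_subset_compl.2 hCC)
  omega

private theorem card_sdiff_ge (C K : Set ι) : C.ncard ≤ (C \ K).ncard + K.ncard := by
  have h8 : (C ∩ K).ncard + (C \ K).ncard = C.ncard :=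
    Set.ncard_inter_add_ncard_sdiff_eq_ncard C K (Set.toFinite _)
  have h9 : (C ∩ K).ncard ≤ K.ncard := Set.ncard_le_ncard Set.inter_subset_right (Set.toFinite _)
  omega

/-- case X: `exists_C0`, covering, `split` with the largest possible number of blocks. -/
theorem exists_goodD {j κ f s b δ : ℕ} (hT : TFam w j κ f s) {K H : Set ι}
    (hH0 : cc w H = 0) (hH : 2 * H.ncard + 5 ≤ κ + f) (hcov : CovD w H δ)
    (hb : K.ncard ≤ finrank ℝ (sp w K) + b)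
    (hK : K.ncard + 78 * (j + 1) ≤ κ + j + 1) :
    ∃ (C : Set ι) (a : ℕ), a ≤ b + δ + 7 * (j + 1) + 1 ∧ K \ H ⊆ C ∧ Disjoint C H ∧
      C.ncard = κ + j + 1 + a ∧ (∀ e ∈ C, cc w (Cᶜ ∪ {e}) = 0) ∧ cc w Cᶜ = 0 ∧
      (∀ Z, Z ⊆ C \ K → Z.ncard ≤ cc w (Cᶜ ∪ Z) + 1 → 2 * Z.ncard ≤ (C \ K).ncard) := by
  obtain ⟨C₀, g1, g2, g3, g4⟩ := exists_C0 hH0 hb
  obtain ⟨C₁, h1, h2, h4, h5⟩ := hcov C₀ g2 g3
  have h3 := span_mono g3 h1
  have hdim := hT.fam.dim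
  have h6 := le_card_of_span h3
  have h7 := card_sdiff_ge C₁ K
  -- the number of blocks
  obtain ⟨Q, hQ1, hQ2, hQ3⟩ : ∃ Q : ℕ, 12 ≤ Q ∧ 6 * (j + 1) * (Q + 1) ≤ (C₁ \ K).ncard ∧
      (C₁ \ K).ncard < 6 * (j + 1) * (Q + 2) := by
    have hpos : 0 < 6 * (j + 1) := by omega
    have h8 : 13 ≤ (C₁ \ K).ncard / (6 * (j + 1)) := by
      rw [Nat.le_div_iff_mul_le hpos]
      omega
    refine ⟨(C₁ \ K).ncard / (6 * (j + 1)) - 1, by omega, ?_, ?_⟩
    · have h9 : (C₁ \ K).ncard / (6 * (j + 1)) - 1 + 1 = (C₁ \ K).ncard / (6 * (j + 1)) := by omega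
      rw [h9]
      exact Nat.mul_div_le _ _
    · have h9 : (C₁ \ K).ncard / (6 * (j + 1)) - 1 + 2 = (C₁ \ K).ncard / (6 * (j + 1)) + 1 := by
        omega
      rw [h9]
      exact Nat.lt_mul_div_succ _ hpos
  obtain ⟨C, t, k1, k2, k3, k4, k5, k6⟩ := split hT.fam hT.hj hT.hs (K := K) h2 (by
    intro x hx
    by_cases h : x ∈ H
    · exact Or.inr h
    · exact Or.inl (h1 (g1 ⟨hx, h⟩))) hH h4 (by omega : 1 ≤ Q) hQ2
  have ht : t ≤ 7 * (j + 1) := by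
    by_contra hcon
    have h9 : 7 * (j + 1) + 1 ≤ t := by omega
    have h10 := Nat.mul_le_mul_left Q h9
    nlinarith
  have h9 := span_mono h3 k1
  have h10 := le_card_of_span h9
  refine ⟨C, C.ncard - (κ + j + 1), by omega, g1.trans (h1.trans k1), k2, by omega, k3, h9, k4⟩

/-- case Y: `exists_C0`, covering, then enlarge so that `a ≥ 2 s + 2` and use `ser_small`. -/
theorem exists_goodD' {j κ f s b δ α : ℕ} (hT : TFam w j κ f s) {K H : Set ι}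
    (hH0 : cc w H = 0) (hH : 2 * H.ncard + 5 ≤ κ + f) (hcov : CovD w H δ)
    (hb : K.ncard ≤ finrank ℝ (sp w K) + b) (hK : K.ncard + j ≤ κ + 1)
    (hα : j + 1 + α ≤ κ) (hα1 : b + δ ≤ α) (hα2 : 2 * s + 2 ≤ α) :
    ∃ (C : Set ι) (a : ℕ), a ≤ α ∧ 2 * s + 1 ≤ a ∧ K \ H ⊆ C ∧ Disjoint C H ∧
      C.ncard = κ + j + 1 + a ∧ (∀ e ∈ C, cc w (Cᶜ ∪ {e}) = 0) ∧ cc w Cᶜ = 0 ∧
      (∀ Z, Z ⊆ C \ K → Z.ncard ≤ cc w (Cᶜ ∪ Z) + 1 → 2 * Z.ncard ≤ (C \ K).ncard) := by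
  obtain ⟨C₀, g1, g2, g3, g4⟩ := exists_C0 hH0 hb
  obtain ⟨C₁, h1, h2, h4, h5⟩ := hcov C₀ g2 g3
  have h3 := span_mono g3 h1
  have hdim := hT.fam.dim
  have hcard := hT.fam.card
  have h6 := le_card_of_span h3
  obtain ⟨C, k1, k2, k3⟩ : ∃ C : Set ι, C₁ ⊆ C ∧ C ⊆ Hᶜ ∧
      C.ncard = max C₁.ncard (κ + j + 1 + (2 * s + 2)) := by
    refine Set.exists_subsuperset_card_eq ?_ (le_max_left _ _) ?_
    · intro x hx
      exact Set.disjoint_left.1 h2 hx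
    · have h7 := Set.ncard_add_ncard_compl H
      rw [Nat.card_eq_fintype_card] at h7
      have h8 : C₁.ncard ≤ (Hᶜ).ncard :=
        Set.ncard_le_ncard (fun x hx => Set.disjoint_left.1 h2 hx) (Set.toFinite _)
      refine max_le h8 ?_
      omega
  have k4 : κ + j + 1 + (2 * s + 2) ≤ C.ncard := by rw [k3]; exact le_max_right _ _
  have k5 : C.ncard ≤ κ + j + 1 + α := by
    rw [k3]
    exact max_le (by omega) (by omega)
  have h7 := card_sdiff_ge C K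
  refine ⟨C, C.ncard - (κ + j + 1), by omega, by omega, g1.trans (h1.trans k1), ?_, by omega, ?_,
    span_mono h3 k1, ?_⟩
  · rw [Set.disjoint_left]
    exact fun x hx => k2 hx
  · intro e he
    by_cases h : e ∈ C₁
    · have h8 := h4 e h
      have h9 := cc_mono (w := w) (X := Cᶜ ∪ {e}) (Y := C₁ᶜ ∪ {e})
        (Set.union_subset_union_left _ (Set.compl_subset_compl.2 k1))
      omega
    · have h9 := cc_mono (w := w) (X := Cᶜ ∪ {e}) (Y := C₁ᶜ) (by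
        rintro x (hx | hx)
        · exact fun hx2 => hx (k1 hx2)
        · rw [Set.mem_singleton_iff] at hx
          rw [hx]
          exact h)
      omega
  · intro Z hZ hZs
    have h8 := ser_small hT.fam (C := C) (Z := Z) (a := C.ncard - (κ + j + 1)) (by omega)
      (by omega) (hZ.trans Set.sdiff_subset) hZs
    omega

end H7.LR
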