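import Pool.Agent.H7.LR.Step

/-! Covering the coloops (section 7 of think note 2620). -/

set_option linter.unusedSectionVars false

open Module Submodule H15 H81.WK H81.LR

namespace H7.LR

variable {ι : Type*} [Fintype ι] {E : Type*} [AddCommGroup E] [Module ℝ E]
  [FiniteDimensional ℝ E] {w : ι → E}

/-- the coloops of `w` on `C`. -/
private def Co (w : ι → E) (C : Set ι) : Set ι := {e | e ∈ C ∧ cc w (Cᶜ ∪ {e}) ≠ 0}

private theorem Co_sub {C : Set ι} : Co w C ⊆ C := fun _ h => h.1

private theorem coA {C : Set ι} (hC : cc w Cᶜ = 0) {R : Set ι} (hR : R ⊆ Co w C) :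
    R.ncard ≤ cc w (Cᶜ ∪ R) := by
  classical
  induction R, Set.toFinite R using Set.Finite.induction_on with
  | empty => simp
  | @insert a s ha hs ih =>
    rw [Set.ncard_insert_of_notMem ha]
    have h1 := ih (fun x hx => hR (Set.mem_insert_of_mem _ hx))
    have h2 := hR (Set.mem_insert a s)
    have h3 := cc_super w (Cᶜ ∪ s) (Cᶜ ∪ {a})
    have h4 : (Cᶜ ∪ s) ∩ (Cᶜ ∪ {a}) = Cᶜ := by
      rw [← Set.union_inter_distrib_left]
      have : s ∩ {a} = ∅ := by
        rw [Set.inter_singleton_eq_empty]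
        exact ha
      rw [this, Set.union_empty]
    have h5 : (Cᶜ ∪ s) ∪ (Cᶜ ∪ {a}) = Cᶜ ∪ insert a s := by
      ext x
      simp only [Set.mem_union, Set.mem_insert_iff, Set.mem_singleton_iff]
      tauto
    rw [h4, h5, hC] at h3
    have h6 := h2.2
    omega

private theorem co_sp {C : Set ι} (hC : cc w Cᶜ = 0) (g : ι) : cc w (insert g C)ᶜ = 0 := by
  have := cc_mono (w := w) (X := (insert g C)ᶜ) (Y := Cᶜ)
    (Set.compl_subset_compl.2 (Set.subset_insert _ _))
  omega

private theorem coB {C : Set ι} (hC : cc w Cᶜ = 0) {g : ι} (hg : g ∉ C) :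
    Co w (insert g C) ⊆ Co w C := by
  rintro e ⟨h1, h2⟩
  rcases h1 with rfl | h1
  · exfalso
    apply h2
    have : (insert e C)ᶜ ∪ {e} = Cᶜ := by
      ext x
      simp only [Set.mem_union, Set.mem_compl_iff, Set.mem_insert_iff, Set.mem_singleton_iff]
      constructor
      · rintro (h | rfl)
        · exact fun h3 => h (Or.inr h3)
        · exact hg
      · intro h
        by_cases h3 : x = e
        · exact Or.inr h3
        · exact Or.inl fun h4 => h4.elim h3 h
    rw [this, hC]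
  · refine ⟨h1, fun h3 => h2 ?_⟩
    have := cc_mono (w := w) (X := (insert g C)ᶜ ∪ {e}) (Y := Cᶜ ∪ {e})
      (Set.union_subset_union_left _ (Set.compl_subset_compl.2 (Set.subset_insert _ _)))
    omega

private theorem coC {C : Set ι} (hC : cc w Cᶜ = 0) {g : ι} (hg : g ∉ C) {R : Set ι}
    (hR : R ⊆ Co w C) (h : w g ∉ sp w (C \ R)) : ∃ e ∈ R, e ∉ Co w (insert g C) := by
  by_contra hcon
  have h1 : R ⊆ Co w (insert g C) := by
    intro e he
    by_contra h2
    exact hcon ⟨e, he, h2⟩
  have h2 := coA (co_sp hC g) h1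
  have h3 := cc_insert_compl hg (hR.trans Co_sub) h
  have h4 := cc_union_le (w := w) Cᶜ R
  omega

/-- phase 1. -/
private theorem phase1 {j κ f s Q : ℕ} (hF : Fam w j κ f s) (hs : s ≤ κ + f) {H : Set ι}
    (hH : 2 * H.ncard + 5 ≤ κ + f) (hQ : 1 ≤ Q) (n : ℕ) :
    ∀ C : Set ι, (Co w C).ncard ≤ n → Disjoint C H → cc w Cᶜ = 0 →
    ∃ C₁ : Set ι, ∃ t : ℕ, C ⊆ C₁ ∧ Disjoint C₁ H ∧ cc w C₁ᶜ = 0 ∧
      Q * t + (Co w C₁).ncard ≤ (Co w C).ncard ∧ C₁.ncard ≤ C.ncard + t ∧
      (Co w C₁).ncard ≤ 3 * j * Q := by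
  classical
  induction n with
  | zero =>
    intro C h1 h2 h3
    refine ⟨C, 0, le_rfl, h2, h3, by omega, by omega, ?_⟩
    have : (Co w C).ncard = 0 := by omega
    rw [this]
    exact Nat.zero_le _
  | succ n ih =>
    intro C h1 h2 h3
    by_cases h4 : (Co w C).ncard ≤ 3 * j * Q
    · exact ⟨C, 0, le_rfl, h2, h3, by omega, by omega, h4⟩
    · have h5 : j * (3 * Q) ≤ (Co w C).ncard := by
        have : j * (3 * Q) = 3 * j * Q := by ring
        omega
      obtain ⟨R, hR1, hR2, hR3⟩ := exists_blocks h5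
      have h6 : κ + j + 1 ≤ C.ncard := by
        have e1 := cc_eq_zero_iff.1 h3
        rw [compl_compl] at e1
        have e2 : finrank ℝ (sp w C) ≤ C.ncard := finrank_sp_le
        rw [e1, finrank_top, hF.dim] at e2
        exact e2
      obtain ⟨g, hg1, hg2, hg3⟩ := step hF hs h2 hH h6 (by omega : 1 ≤ 3 * Q) R
        (fun i => (hR1 i).trans Co_sub) (fun i => by rw [hR2 i]; omega)
        (fun i => by
          have := coA h3 (hR1 i)
          rw [hR2 i] at this
          exact this)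
      -- each good block loses a coloop
      have h7 : ∀ i : Fin (3 * Q), w g ∉ sp w (C \ R i) → ∃ e ∈ R i, e ∉ Co w (insert g C) :=
        fun i hi => coC h3 hg1 (hR1 i) hi
      have h8 : Q + (Co w (insert g C)).ncard ≤ (Co w C).ncard := by
        have h9 : ∀ i : Fin (3 * Q), ∃ e, w g ∉ sp w (C \ R i) →
            e ∈ R i ∧ e ∉ Co w (insert g C) := by
          intro i
          by_cases hi : w g ∉ sp w (C \ R i)
          · obtain ⟨e, he1, he2⟩ := h7 i hi
            exact ⟨e, fun _ => ⟨he1, he2⟩⟩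
          · exact ⟨g, fun h => absurd h hi⟩
        choose φ hφ using h9
        have h10 : (φ '' {i | w g ∉ sp w (C \ R i)}).ncard =
            {i | w g ∉ sp w (C \ R i)}.ncard := by
          refine Set.InjOn.ncard_image ?_
          intro a ha b hb hab
          by_contra hne
          have h11 := (hφ a ha).1
          have h12 := (hφ b hb).1
          rw [← hab] at h12
          exact Set.disjoint_left.1 (hR3 a b hne) h11 h12
        have h13 : φ '' {i | w g ∉ sp w (C \ R i)} ∪ Co w (insert g C) ⊆ Co w C := by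
          rintro x (⟨i, hi, rfl⟩ | hx)
          · exact hR1 i (hφ i hi).1
          · exact coB h3 hg1 hx
        have h14 : Disjoint (φ '' {i | w g ∉ sp w (C \ R i)}) (Co w (insert g C)) := by
          rw [Set.disjoint_left]
          rintro x ⟨i, hi, rfl⟩ hx
          exact (hφ i hi).2 hx
        have h15 := Set.ncard_le_ncard h13 (Set.toFinite _)
        rw [Set.ncard_union_eq h14 (Set.toFinite _) (Set.toFinite _), h10] at h15
        omega
      have hdis : Disjoint (insert g C) H := by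
        rw [Set.disjoint_left]
        rintro x (rfl | hx) hxH
        · exact hg2 hxH
        · exact Set.disjoint_left.1 h2 hx hxH
      obtain ⟨C₁, t, k1, k2, k3, k4, k5, k6⟩ := ih (insert g C) (by omega) hdis (co_sp h3 g)
      rw [Set.ncard_insert_of_notMem hg1] at k5
      refine ⟨C₁, t + 1, (Set.subset_insert _ _).trans k1, k2, k3, ?_, by omega, k6⟩
      rw [Nat.mul_add, Nat.mul_one]
      omega

/-- phase 2. -/
private theorem phase2 {H : Set ι} (hHe : ∀ e, cc w (insert e H) = 0) (n : ℕ) :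
    ∀ C : Set ι, (Co w C).ncard ≤ n → Disjoint C H → cc w Cᶜ = 0 →
    ∃ C₁ : Set ι, C ⊆ C₁ ∧ Disjoint C₁ H ∧ Co w C₁ = ∅ ∧ C₁.ncard ≤ C.ncard + n := by
  classical
  induction n with
  | zero =>
    intro C h1 h2 h3
    refine ⟨C, le_rfl, h2, ?_, by omega⟩
    rwa [Nat.le_zero, Set.ncard_eq_zero (Set.toFinite _)] at h1
  | succ n ih =>
    intro C h1 h2 h3
    by_cases h4 : Co w C = ∅
    · exact ⟨C, le_rfl, h2, h4, by omega⟩
    · obtain ⟨e, he⟩ := Set.nonempty_iff_ne_empty.2 h4
      have h5 : ∃ g, g ∉ insert e H ∧ w g ∉ sp w (C \ {e}) := by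
        by_contra hcon
        have h6 : sp w (insert e H)ᶜ ≤ sp w (C \ {e}) := by
          refine span_le.2 ?_
          rintro _ ⟨g, hg, rfl⟩
          by_contra h7
          exact hcon ⟨g, hg, h7⟩
        rw [cc_eq_zero_iff.1 (hHe e)] at h6
        apply he.2
        rw [cc_eq_zero_iff]
        have e1 : (Cᶜ ∪ {e})ᶜ = C \ {e} := by
          rw [Set.compl_union, compl_compl]; rfl
        rw [e1]
        exact top_unique h6
      obtain ⟨g, hg1, hg2⟩ := h5
      have hgC : g ∉ C := by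
        intro h6
        apply hg2
        refine mem_sp ⟨h6, ?_⟩
        rintro rfl
        exact hg1 (Set.mem_insert _ _)
      have h6 : Co w (insert g C) ⊆ Co w C \ {e} := by
        intro x hx
        refine ⟨coB h3 hgC hx, ?_⟩
        intro hxe
        rw [Set.mem_singleton_iff] at hxe
        subst hxe
        obtain ⟨y, hy1, hy2⟩ := coC h3 hgC (R := {x}) (by
          rw [Set.singleton_subset_iff]
          exact he) hg2
        rw [Set.mem_singleton_iff] at hy1
        rw [hy1] at hy2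
        exact hy2 hx
      have h7 := Set.ncard_le_ncard h6 (Set.toFinite _)
      have h8 : (Co w C \ {e}).ncard + 1 = (Co w C).ncard :=
        Set.ncard_sdiff_singleton_add_one he (Set.toFinite _)
      have hdis : Disjoint (insert g C) H := by
        rw [Set.disjoint_left]
        rintro x (rfl | hx) hxH
        · exact hg1 (Set.mem_insert_of_mem _ hxH)
        · exact Set.disjoint_left.1 h2 hx hxH
      obtain ⟨C₁, k1, k2, k3, k4⟩ := ih (insert g C) (by omega) hdis (co_sp h3 g)
      rw [Set.ncard_insert_of_notMem hgC] at k4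
      exact ⟨C₁, (Set.subset_insert _ _).trans k1, k2, k3, by omega⟩

/-- **COVER**, section 7 of the note. -/
theorem cover {j κ f s Q : ℕ} (hF : Fam w j κ f s) (_hj : 1 ≤ j) (hs : s ≤ κ + f) {C₀ H : Set ι}
    (hCH : Disjoint C₀ H) (hH : 2 * H.ncard + 5 ≤ κ + f) (hsp : cc w C₀ᶜ = 0)
    (hHe : ∀ e, cc w (insert e H) = 0) (hQ : 1 ≤ Q) :
    ∃ C : Set ι, ∃ t : ℕ, C₀ ⊆ C ∧ Disjoint C H ∧ (∀ e ∈ C, cc w (Cᶜ ∪ {e}) = 0) ∧
      Q * t ≤ C₀.ncard ∧ C.ncard ≤ C₀.ncard + t + 3 * j * Q := by
  obtain ⟨C₁, t, h1, h2, h3, h4, h5, h6⟩ := phase1 hF hs hH hQ (Co w C₀).ncard C₀ le_rfl hCH hsp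
  obtain ⟨C₂, k1, k2, k3, k4⟩ := phase2 hHe (3 * j * Q) C₁ h6 h2 h3
  refine ⟨C₂, t, h1.trans k1, k2, ?_, ?_, by omega⟩
  · intro e he
    by_contra hne
    have : e ∈ Co w C₂ := ⟨he, hne⟩
    rw [k3] at this
    exact this
  · have := Set.ncard_le_ncard (Co_sub (w := w) (C := C₀)) (Set.toFinite _)
    omega

end H7.LR
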