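import Pool.Agent.H70.LR.CoverLog

/-! Covering the coloops, geometric version (halving). -/

set_option linter.unusedSectionVars false

open Module Submodule H15 H81.WK H81.LR H70.LR

namespace H7.LR

variable {ι : Type*} [Fintype ι] {E : Type*} [AddCommGroup E] [Module ℝ E]
  [FiniteDimensional ℝ E] {w : ι → E}

/-- one step: `m` blocks of coloops, at least `m / 3` coloops are covered by one element. -/
theorem one_step_third {j κ f s m : ℕ} (hF : Fam w j κ f s) (hs : s ≤ κ + f)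
    {C H : Set ι} (hCH : Disjoint C H) (hH : 2 * H.ncard + 5 ≤ κ + f) (hsp : cc w Cᶜ = 0)
    (hm : 1 ≤ m) (hn : j * m ≤ (H70.LR.Co w C).ncard) :
    ∃ g l, g ∉ C ∧ g ∉ H ∧ m ≤ 3 * l ∧
      (H70.LR.Co w (insert g C)).ncard + l ≤ (H70.LR.Co w C).ncard := by
  classical
  obtain ⟨R, hR1, hR2, hR3⟩ := exists_blocks (Z := H70.LR.Co w C) (r := j) (m := m) hn
  have hdim := hF.dim
  obtain ⟨g, hgC, hgH, hg⟩ := step hF hs hCH hH (by have := le_ncard_of_span hsp; omega)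
    hm R (fun i => (hR1 i).trans (Co_sub C)) (fun i => by rw [hR2]; omega)
    (fun i => by rw [cc_Co hsp (hR1 i), hR2])
  refine ⟨g, {i | w g ∉ sp w (C \ R i)}.ncard, hgC, hgH, hg, ?_⟩
  have hex : ∀ i : Fin m, w g ∉ sp w (C \ R i) → ∃ e ∈ R i, e ∉ H70.LR.Co w (insert g C) := by
    intro i hi
    by_contra hcon
    push Not at hcon
    have h1 := cc_insert_compl hgC ((hR1 i).trans (Co_sub C)) hi
    rw [cc_Co hsp (hR1 i), cc_Co (span_insert' hsp g) hcon] at h1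
    omega
  have : Nonempty ι := ⟨g⟩
  choose! e he1 he2 using hex
  have hinj : Set.InjOn e {i | w g ∉ sp w (C \ R i)} := by
    intro i hi i' hi' h
    by_contra hne
    have h1 := he1 i hi
    have h2 := he1 i' hi'
    rw [← h] at h2
    exact Set.disjoint_left.1 (hR3 i i' hne) h1 h2
  have hsub : e '' {i | w g ∉ sp w (C \ R i)} ⊆
      H70.LR.Co w C \ H70.LR.Co w (insert g C) := by
    rintro _ ⟨i, hi, rfl⟩
    exact ⟨hR1 i (he1 i hi), he2 i hi⟩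
  have h1 := Set.ncard_le_ncard hsub (Set.toFinite _)
  rw [hinj.ncard_image] at h1
  have h2 := Set.ncard_sdiff_add_ncard_of_subset (Co_insert hsp hgC) (Set.toFinite _)
  omega

private theorem arith {j u n n' l m t : ℕ} (h : 6 * j * n + t * (u + 2) ≤ 6 * j * u + t * j)
    (h2 : u + j < 2 * n) (h3 : m ≤ 3 * l) (h4 : n' + l ≤ n) (h5 : n < j * m + j) :
    6 * j * n' + (t + 1) * (u + 2) ≤ 6 * j * u + (t + 1) * j := by
  have a1 : j * m ≤ j * (3 * l) := Nat.mul_le_mul_left _ h3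
  have a2 : j * (n' + l) ≤ j * n := Nat.mul_le_mul_left _ h4
  have e1 : j * (3 * l) = 3 * (j * l) := by ring
  have e2 : j * (n' + l) = j * n' + j * l := by ring
  have e3 : 6 * j * n' = 6 * (j * n') := by ring
  have e4 : 6 * j * n = 6 * (j * n) := by ring
  have e5 : (t + 1) * (u + 2) = t * (u + 2) + (u + 2) := by ring
  have e6 : (t + 1) * j = t * j + j := by ring
  rw [e3, e5, e6]
  rw [e4] at h
  rw [e1] at a1
  rw [e2] at a2
  omega

private theorem halve_aux {j κ f s : ℕ} (hF : Fam w j κ f s) (hj : 1 ≤ j) (hs : s ≤ κ + f)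
    {C₀ H : Set ι} (hCH : Disjoint C₀ H) (hH : 2 * H.ncard + 5 ≤ κ + f) (hsp : cc w C₀ᶜ = 0)
    (t : ℕ) : ∃ C : Set ι, C₀ ⊆ C ∧ Disjoint C H ∧ cc w Cᶜ = 0 ∧ C.ncard ≤ C₀.ncard + t ∧
      (H70.LR.Co w C).ncard ≤ (H70.LR.Co w C₀).ncard ∧
      (2 * (H70.LR.Co w C).ncard ≤ (H70.LR.Co w C₀).ncard + j ∨
        6 * j * (H70.LR.Co w C).ncard + t * ((H70.LR.Co w C₀).ncard + 2) ≤
          6 * j * (H70.LR.Co w C₀).ncard + t * j) := by
  induction t with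
  | zero => exact ⟨C₀, le_rfl, hCH, hsp, by omega, le_rfl, Or.inr (by simp)⟩
  | succ t ih =>
    obtain ⟨C, h1, h2, h3, h4, h4', h5⟩ := ih
    by_cases h6 : 2 * (H70.LR.Co w C).ncard ≤ (H70.LR.Co w C₀).ncard + j
    · exact ⟨C, h1, h2, h3, by omega, h4', Or.inl h6⟩
    · have h7 := h5.resolve_left h6
      have h8 : 1 ≤ (H70.LR.Co w C).ncard / j := by
        rw [Nat.one_le_div_iff (by omega)]
        omega
      obtain ⟨g, l, k1, k2, k3, k4⟩ := one_step_third hF hs h2 hH h3 h8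
        (Nat.mul_div_le _ _)
      have k5 : (H70.LR.Co w C).ncard < j * ((H70.LR.Co w C).ncard / j) + j := by
        have := Nat.lt_mul_div_succ (H70.LR.Co w C).ncard (by omega : 0 < j)
        rw [Nat.mul_add, Nat.mul_one] at this
        exact this
      refine ⟨insert g C, h1.trans (Set.subset_insert _ _), ?_, span_insert' h3 g, ?_, by omega,
        Or.inr (arith h7 (by omega) k3 k4 k5)⟩
      · rw [Set.disjoint_insert_left]
        exact ⟨k2, h2⟩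
      · rw [Set.ncard_insert_of_notMem k1]
        omega

/-- **halving**: `3 j` elements suffice for `2 |Co(C')| ≤ |Co(C)| + j`. -/
theorem halve' {j κ f s : ℕ} (hF : Fam w j κ f s) (hj : 1 ≤ j) (hs : s ≤ κ + f) {C₀ H : Set ι}
    (hCH : Disjoint C₀ H) (hH : 2 * H.ncard + 5 ≤ κ + f) (hsp : cc w C₀ᶜ = 0) :
    ∃ C : Set ι, C₀ ⊆ C ∧ Disjoint C H ∧ cc w Cᶜ = 0 ∧ C.ncard ≤ C₀.ncard + 3 * j ∧
      2 * (H70.LR.Co w C).ncard ≤ (H70.LR.Co w C₀).ncard + j := by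
  obtain ⟨C, h1, h2, h3, h4, -, h5⟩ := halve_aux hF hj hs hCH hH hsp (3 * j)
  refine ⟨C, h1, h2, h3, h4, ?_⟩
  rcases h5 with h5 | h5
  · exact h5
  · have h6 : 3 * j * (2 * (H70.LR.Co w C).ncard + ((H70.LR.Co w C₀).ncard + 2)) ≤
        3 * j * (2 * (H70.LR.Co w C₀).ncard + j) := by
      have e1 : 3 * j * (2 * (H70.LR.Co w C).ncard + ((H70.LR.Co w C₀).ncard + 2)) =
        6 * j * (H70.LR.Co w C).ncard + 3 * j * ((H70.LR.Co w C₀).ncard + 2) := by ring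
      have e2 : 3 * j * (2 * (H70.LR.Co w C₀).ncard + j) =
        6 * j * (H70.LR.Co w C₀).ncard + 3 * j * j := by ring
      rw [e1, e2]
      exact h5
    have h7 := Nat.le_of_mul_le_mul_left h6 (by omega)
    omega

/-- **halving**, the statement of the frame. -/
theorem halve {j κ f s : ℕ} (hF : Fam w j κ f s) (hj : 1 ≤ j) (hs : s ≤ κ + f) {C₀ H : Set ι}
    (hCH : Disjoint C₀ H) (hH : 2 * H.ncard + 5 ≤ κ + f) (hsp : cc w C₀ᶜ = 0) :
    ∃ C : Set ι, C₀ ⊆ C ∧ Disjoint C H ∧ C.ncard ≤ C₀.ncard + 3 * j ∧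
      2 * (H70.LR.Co w C).ncard ≤ (H70.LR.Co w C₀).ncard + j := by
  obtain ⟨C, h1, h2, _, h4, h5⟩ := halve' hF hj hs hCH hH hsp
  exact ⟨C, h1, h2, h4, h5⟩

private theorem iter {j κ f s : ℕ} (hF : Fam w j κ f s) (hj : 1 ≤ j) (hs : s ≤ κ + f)
    {C₀ H : Set ι} (hCH : Disjoint C₀ H) (hH : 2 * H.ncard + 5 ≤ κ + f) (hsp : cc w C₀ᶜ = 0)
    (n : ℕ) : ∃ C : Set ι, C₀ ⊆ C ∧ Disjoint C H ∧ cc w Cᶜ = 0 ∧
      C.ncard ≤ C₀.ncard + 3 * j * n ∧
      2 ^ n * (H70.LR.Co w C).ncard + j ≤ (H70.LR.Co w C₀).ncard + 2 ^ n * j := by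
  induction n with
  | zero => exact ⟨C₀, le_rfl, hCH, hsp, by omega, by simp⟩
  | succ n ih =>
    obtain ⟨C, h1, h2, h3, h4, h5⟩ := ih
    obtain ⟨C', k1, k2, k3, k4, k5⟩ := halve' hF hj hs h2 hH h3
    refine ⟨C', h1.trans k1, k2, k3, ?_, ?_⟩
    · have : 3 * j * (n + 1) = 3 * j * n + 3 * j := by ring
      omega
    · have h6 := Nat.mul_le_mul_left (2 ^ n) k5
      have e1 : 2 ^ n * (2 * (H70.LR.Co w C').ncard) = 2 ^ (n + 1) * (H70.LR.Co w C').ncard := by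
        ring
      have e2 : 2 ^ n * ((H70.LR.Co w C).ncard + j) =
        2 ^ n * (H70.LR.Co w C).ncard + 2 ^ n * j := by ring
      have e3 : 2 ^ (n + 1) * j = 2 ^ n * j + 2 ^ n * j := by ring
      omega

/-- **COVER**, geometric version: 13 halvings, then one by one. -/
theorem coverG {j κ f s : ℕ} (hF : Fam w j κ f s) (hj : 1 ≤ j) (hs : s ≤ κ + f) {C₀ H : Set ι}
    (hCH : Disjoint C₀ H) (hH : 2 * H.ncard + 5 ≤ κ + f) (hsp : cc w C₀ᶜ = 0)
    (hHe : ∀ e, cc w (insert e H) = 0) :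
    ∃ C : Set ι, ∃ t : ℕ, C₀ ⊆ C ∧ Disjoint C H ∧ (∀ e ∈ C, cc w (Cᶜ ∪ {e}) = 0) ∧
      8192 * t ≤ C₀.ncard ∧ C.ncard ≤ C₀.ncard + t + 40 * j := by
  obtain ⟨C₁, h1, h2, h3, h4, h5⟩ := iter hF hj hs hCH hH hsp 13
  norm_num at h5
  have h6 : (H70.LR.Co w C₀).ncard ≤ C₀.ncard :=
    Set.ncard_le_ncard (Co_sub C₀) (Set.toFinite _)
  obtain ⟨C, g1, g2, g3, g4⟩ := last hHe ((H70.LR.Co w C₀).ncard / 8192 + j) C₁ h2 h3 (by omega)
  refine ⟨C, (H70.LR.Co w C₀).ncard / 8192, h1.trans g1, g2, ?_, by omega, by omega⟩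
  intro e he
  by_contra hcon
  have : e ∈ H70.LR.Co w C := ⟨he, hcon⟩
  rw [g3] at this
  exact this

end H7.LR
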