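import Pool.Agent.H81.LR.Cfun

/-! The averaging lemma (section 6 of think note 2620) and blocks. -/

set_option linter.unusedSectionVars false

open Module Submodule H15 H81.WK H81.LR

namespace H7.LR

variable {ι : Type*} [Fintype ι] {E : Type*} [AddCommGroup E] [Module ℝ E]
  [FiniteDimensional ℝ E] {w : ι → E}

/-- **STEP**, section 6 of the note. -/
theorem step {j κ f s m : ℕ} (hF : Fam w j κ f s) (hs : s ≤ κ + f) {C H : Set ι}
    (hCH : Disjoint C H) (hH : 2 * H.ncard + 5 ≤ κ + f) (hC : κ + j + 1 ≤ C.ncard) (hm : 1 ≤ m)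
    (R : Fin m → Set ι) (hRC : ∀ i, R i ⊆ C) (hRj : ∀ i, (R i).ncard ≤ j + 1)
    (hRc : ∀ i, j ≤ cc w (Cᶜ ∪ R i)) :
    ∃ g, g ∉ C ∧ g ∉ H ∧ m ≤ 3 * {i | w g ∉ sp w (C \ R i)}.ncard := by
  classical
  by_contra hcon
  have hcon' : ∀ g, g ∉ C → g ∉ H → 3 * {i | w g ∉ sp w (C \ R i)}.ncard < m := by
    intro g h1 h2
    by_contra h3
    exact hcon ⟨g, h1, h2, not_lt.1 h3⟩
  have hdim := hF.dim
  have hcard := hF.card
  set G : Set ι := (C ∪ H)ᶜ with hG
  have hGc : G.ncard + (C.ncard + H.ncard) = Fintype.card ι := by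
    have h1 := Set.ncard_add_ncard_compl (C ∪ H)
    rw [← hG, Nat.card_eq_fintype_card,
      Set.ncard_union_eq hCH (Set.toFinite _) (Set.toFinite _)] at h1
    omega
  have key : ∀ i, κ + f ≤ {g | g ∈ G ∧ w g ∉ sp w (C \ R i)}.ncard + H.ncard + 2 := by
    intro i
    have e1 : (Cᶜ ∪ R i)ᶜ = C \ R i := by
      rw [Set.compl_union, compl_compl]; rfl
    have h1 := cc_add w (Cᶜ ∪ R i)
    rw [e1] at h1
    have h2 := hRc i
    have h3 := hF.fc (sp w (C \ R i)) (by omega)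
    have h4 : (C \ R i) ∪ {g | g ∈ G ∧ w g ∈ sp w (C \ R i)} ⊆ {g | w g ∈ sp w (C \ R i)} := by
      rintro g (hg | hg)
      · exact mem_sp hg
      · exact hg.2
    have h5 : Disjoint (C \ R i) {g | g ∈ G ∧ w g ∈ sp w (C \ R i)} := by
      rw [Set.disjoint_left]
      rintro g hg ⟨hg2, _⟩
      exact hg2 (Or.inl hg.1)
    have h6 := Set.ncard_le_ncard h4 (Set.toFinite _)
    rw [Set.ncard_union_eq h5 (Set.toFinite _) (Set.toFinite _)] at h6
    have h7 : (C \ R i).ncard + (R i).ncard = C.ncard :=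
      Set.ncard_sdiff_add_ncard_of_subset (hRC i) (Set.toFinite _)
    have h8 := hRj i
    have h9 : {g | g ∈ G ∧ w g ∈ sp w (C \ R i)}.ncard +
        {g | g ∈ G ∧ w g ∉ sp w (C \ R i)}.ncard = G.ncard := by
      rw [← Set.ncard_union_eq _ (Set.toFinite _) (Set.toFinite _)]
      · congr 1
        ext g
        simp only [Set.mem_union, Set.mem_ofPred_eq]
        tauto
      · rw [Set.disjoint_left]
        rintro g ⟨_, hg⟩ ⟨_, hg2⟩
        exact hg2 hg
    omega
  -- double counting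
  have hsum : ∑ i : Fin m, {g | g ∈ G ∧ w g ∉ sp w (C \ R i)}.ncard =
      ∑ g ∈ G.toFinset, {i | w g ∉ sp w (C \ R i)}.ncard := by
    have h1 : ∀ i : Fin m, {g | g ∈ G ∧ w g ∉ sp w (C \ R i)}.ncard =
        ∑ g ∈ G.toFinset, if w g ∉ sp w (C \ R i) then 1 else 0 := by
      intro i
      rw [← Finset.card_filter, ← Set.ncard_coe_finset]
      congr 1
      ext g
      simp
    have h2 : ∀ g : ι, {i : Fin m | w g ∉ sp w (C \ R i)}.ncard =
        ∑ i : Fin m, if w g ∉ sp w (C \ R i) then 1 else 0 := by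
      intro g
      rw [← Finset.card_filter, ← Set.ncard_coe_finset]
      congr 1
      ext i
      simp
    simp only [h1, h2]
    exact Finset.sum_comm
  have h10 : m * (κ + f) ≤ ∑ i : Fin m, {g | g ∈ G ∧ w g ∉ sp w (C \ R i)}.ncard +
      m * (H.ncard + 2) := by
    have : ∑ _i : Fin m, (κ + f) ≤ ∑ i : Fin m,
        ({g | g ∈ G ∧ w g ∉ sp w (C \ R i)}.ncard + (H.ncard + 2)) :=
      Finset.sum_le_sum fun i _ => by have := key i; omega
    have h1 : ∑ _i : Fin m, (κ + f) = m * (κ + f) := by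
      rw [Finset.sum_const, Finset.card_univ, Fintype.card_fin, smul_eq_mul]
    have h2 : ∑ _i : Fin m, (H.ncard + 2) = m * (H.ncard + 2) := by
      rw [Finset.sum_const, Finset.card_univ, Fintype.card_fin, smul_eq_mul]
    have h3 : ∑ i : Fin m, ({g | g ∈ G ∧ w g ∉ sp w (C \ R i)}.ncard + (H.ncard + 2)) =
        ∑ i : Fin m, {g | g ∈ G ∧ w g ∉ sp w (C \ R i)}.ncard + m * (H.ncard + 2) := by
      rw [Finset.sum_add_distrib, h2]
    rw [h1, h3] at this
    exact this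
  have h11 : 3 * ∑ g ∈ G.toFinset, {i | w g ∉ sp w (C \ R i)}.ncard ≤ G.ncard * (m - 1) := by
    rw [Finset.mul_sum]
    have : ∑ g ∈ G.toFinset, 3 * {i | w g ∉ sp w (C \ R i)}.ncard ≤ ∑ _g ∈ G.toFinset, (m - 1) := by
      refine Finset.sum_le_sum fun g hg => ?_
      rw [Set.mem_toFinset] at hg
      have := hcon' g (fun h => hg (Or.inl h)) (fun h => hg (Or.inr h))
      omega
    rw [Finset.sum_const, smul_eq_mul, ← Set.ncard_eq_toFinset_card'] at this
    exact this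
  rw [← hsum] at h11
  have h12 : G.ncard + H.ncard + 1 ≤ 2 * (κ + f) := by omega
  obtain ⟨m', rfl⟩ : ∃ m', m = m' + 1 := ⟨m - 1, by omega⟩
  rw [Nat.add_sub_cancel] at h11
  set S := ∑ i : Fin (m' + 1), {g | g ∈ G ∧ w g ∉ sp w (C \ R i)}.ncard
  have h13 : G.ncard * m' ≤ (2 * (κ + f) - H.ncard - 1) * m' := Nat.mul_le_mul_right _ (by omega)
  obtain ⟨K, hK⟩ : ∃ K, κ + f = K + 2 * H.ncard + 5 := ⟨κ + f - 2 * H.ncard - 5, by omega⟩
  rw [hK] at h10 h13
  have h14 : 2 * (K + 2 * H.ncard + 5) - H.ncard - 1 = 2 * K + 3 * H.ncard + 9 := by omega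
  rw [h14] at h13
  nlinarith [h10, h11, h13]

/-- disjoint blocks of size `r` in a set. -/
theorem exists_blocks {Z : Set ι} {r m : ℕ} (h : r * m ≤ Z.ncard) :
    ∃ R : Fin m → Set ι, (∀ i, R i ⊆ Z) ∧ (∀ i, (R i).ncard = r) ∧
      ∀ i i', i ≠ i' → Disjoint (R i) (R i') := by
  classical
  rw [Set.ncard_eq_toFinset_card', mul_comm] at h
  obtain ⟨S, hS, hSc⟩ := Finset.exists_subset_card_eq h
  let e : Fin m × Fin r ≃ S := finProdFinEquiv.trans (S.equivFinOfCardEq hSc).symm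
  refine ⟨fun i => (fun k : Fin r => ((e (i, k) : S) : ι)) '' Set.univ, ?_, ?_, ?_⟩
  · rintro i _ ⟨k, _, rfl⟩
    have := hS (e (i, k)).2
    exact Set.mem_toFinset.1 this
  · intro i
    rw [Set.ncard_image_of_injective, Set.ncard_univ, Nat.card_eq_fintype_card, Fintype.card_fin]
    intro k k' hk
    have h1 : e (i, k) = e (i, k') := Subtype.ext hk
    have h2 := e.injective h1
    exact (Prod.mk.inj h2).2
  · intro i i' hii
    rw [Set.disjoint_left]
    rintro _ ⟨k, _, rfl⟩ ⟨k', _, hk⟩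
    have h1 : e (i', k') = e (i, k) := Subtype.ext hk
    exact hii (Prod.mk.inj (e.injective h1)).1.symm

end H7.LR
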